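import Pool.Agent.Helper95.HV.Stmts
import Pool.Agent.Helper53.LN.VIR

/-!
# HV: common core of the rows V2S, V2I, V2R (arbitrary velocities and accelerations)
-/

set_option autoImplicit false

namespace Pool.Agent.Helper6.HV

open MeasureTheory Filter Pool.Agent.Helper95.PW Pool.Agent.Helper95.LN Pool.Agent.Helper95.CF
  Pool.Agent.Helper95.HV Pool.Agent.Helper53.LN
open Pool.Agent.Helper82.PN (pgb_tri)

theorem Tq_sub (ξ v w : R3) : Tq ξ (v - w) (v - w) = Tq ξ v v + Tq ξ w w - 2 * Tq ξ v w := by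
  unfold Tq
  simp only [Fin.sum_univ_three, Pi.sub_apply]
  ring

theorem Tq_neg (ξ v w : R3) : Tq (-ξ) v w = Tq ξ v w := by
  have h : nr (-ξ) = nr ξ := by
    unfold nr
    simp
  unfold Tq
  rw [h]
  simp only [Fin.sum_univ_three, Pi.neg_apply]
  ring

theorem Tq_swap (x y v w : R3) : Tq (x - y) v w = Tq (y - x) v w := by
  rw [← Tq_neg, neg_sub]

theorem Tq_zl (ξ w : R3) : Tq ξ 0 w = 0 := by
  unfold Tq
  simp

theorem Tq_zr (ξ w : R3) : Tq ξ w 0 = 0 := by
  unfold Tq
  simp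

theorem Tq_z (v w : R3) : Tq 0 v w = 0 := by
  unfold Tq nr
  simp

/-- force and second derivative of the electron `l` on `k` -/
noncomputable def FK {n : ℕ} (x : Cf n) (v q : Fin n → R3) (k l : Fin n) : ℝ :=
  Tq (x k - x l) (v k) (v k) - (∑ m, q k m * (x k m - x l m)) / nr (x k - x l) ^ 3

/-- the same for the nucleus `j` (charge one, opposite sign) -/
noncomputable def NU {n M : ℕ} (X : Fin M → R3) (x : Cf n) (v q : Fin n → R3) (k : Fin n)
    (j : Fin M) : ℝ :=
  (∑ m, q k m * (x k m - X j m)) / nr (x k - X j) ^ 3 - Tq (x k - X j) (v k) (v k)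

/-- pair terms -/
noncomputable def WP {n : ℕ} (x : Cf n) (v q : Fin n → R3) (k l : Fin n) : ℝ :=
  Tq (x k - x l) (v k - v l) (v k - v l) -
    (∑ i, (q k i - q l i) * (x k i - x l i)) / nr (x k - x l) ^ 3

/-- second derivative of the potential energy -/
noncomputable def DV {n M : ℕ} (X : Fin M → R3) (Z : Fin M → ℝ) (x : Cf n) (v q : Fin n → R3) :
    ℝ :=
  (∑ k, ∑ l, if k < l then WP x v q k l else 0) + ∑ k, ∑ j, Z j * NU X x v q k j

theorem D2_eq {n M : ℕ} (X : Fin M → R3) (Z : Fin M → ℝ) (g : R3 → ℝ) (x : Cf n) :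
    D2 X Z g x = DV X Z x (fun k => gv g (x k)) (fun k => gq g (x k)) := rfl

theorem WP_eq {n : ℕ} (x : Cf n) (v q : Fin n → R3) (k l : Fin n) :
    WP x v q k l = FK x v q k l + FK x v q l k - 2 * Tq (x k - x l) (v k) (v l) := by
  unfold WP FK
  rw [Tq_sub, Tq_swap (x l) (x k), VIR_sym (x l) (x k)]
  simp only [Fin.sum_univ_three]
  ring

theorem FK_self {n : ℕ} (x : Cf n) (v q : Fin n → R3) (k : Fin n) : FK x v q k k = 0 := by
  unfold FK
  simp [Tq_z]

/-- both in one ball -/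
noncomputable def NN {n M : ℕ} (X : Fin M → R3) (d : ℝ) (x : Cf n) (k l : Fin n) : ℝ :=
  ∑ i, sw X (3 / 2 * d) x i k * sw X (3 / 2 * d) x i l

theorem NN_symm {n M : ℕ} (X : Fin M → R3) (d : ℝ) (x : Cf n) (k l : Fin n) :
    NN X d x k l = NN X d x l k := by
  unfold NN
  exact Finset.sum_congr rfl fun i _ => mul_comm _ _

theorem NN_nonneg {n M : ℕ} (X : Fin M → R3) (d : ℝ) (x : Cf n) (k l : Fin n) :
    0 ≤ NN X d x k l :=
  Finset.sum_nonneg fun i _ => mul_nonneg (sw_nonneg _ _ _ _ _) (sw_nonneg _ _ _ _ _)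

theorem NN_le {n M : ℕ} {X : Fin M → R3} {d : ℝ} (hd : 0 < d) (hS : Sep X d) (x : Cf n)
    (k l : Fin n) : NN X d x k l ≤ 1 := by
  refine le_trans ?_ (VIR_le1 hd hS x k)
  unfold NN
  refine Finset.sum_le_sum fun i _ => ?_
  have h1 := mul_le_mul_of_nonneg_left (sw_le X (3 / 2 * d) x i l)
    (sw_nonneg X (3 / 2 * d) x i k)
  rwa [mul_one] at h1

theorem sw_sum {n M : ℕ} {X : Fin M → R3} {d : ℝ} (hd : 0 < d) (hS : Sep X d) (x : Cf n)
    (k : Fin n) {i : Fin M} (hi : nr (x k - X i) < 3 / 2 * d) (f : Fin M → ℝ) :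
    ∑ j, sw X (3 / 2 * d) x j k * f j = f i := by
  rw [Finset.sum_eq_single i]
  · unfold sw
    rw [if_pos hi, one_mul]
  · intro j _ hj
    unfold sw
    rw [if_neg, zero_mul]
    intro h
    have h1 := hS j i hj
    have h2 := pgb_tri (X j) (X i) (x k)
    linarith
  · intro h
    exact absurd (Finset.mem_univ _) h

theorem DV_split {n M : ℕ} (X : Fin M → R3) (Z : Fin M → ℝ) (d : ℝ) (x : Cf n)
    (v q : Fin n → R3) :
    DV X Z x v q = (∑ k, ∑ l, if k < l then NN X d x k l * WP x v q k l else 0) +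
      (∑ k, (∑ l, (1 - NN X d x k l) * FK x v q k l + ∑ j, Z j * NU X x v q k j)) -
      2 * ∑ k, ∑ l, (if k < l then (1 - NN X d x k l) * Tq (x k - x l) (v k) (v l) else 0) := by
  have e1 := VIR_pairs (fun k l => (1 - NN X d x k l) * FK x v q k l)
    (fun k => by simp only [FK_self, mul_zero])
  rw [Finset.sum_add_distrib, ← e1]
  unfold DV
  have e2 : (∑ k, ∑ l, if k < l then WP x v q k l else 0) =
      (∑ k, ∑ l, if k < l then NN X d x k l * WP x v q k l else 0) +
      (∑ k, ∑ l, (if k < l then (1 - NN X d x k l) * FK x v q k l +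
        (1 - NN X d x l k) * FK x v q l k else 0)) -
      2 * ∑ k, ∑ l, (if k < l then (1 - NN X d x k l) * Tq (x k - x l) (v k) (v l) else 0) := by
    simp only [Finset.mul_sum, ← Finset.sum_add_distrib, ← Finset.sum_sub_distrib]
    refine Finset.sum_congr rfl fun k _ => Finset.sum_congr rfl fun l _ => ?_
    split_ifs
    · rw [WP_eq, NN_symm X d x l k]
      ring
    · ring
  rw [e2]
  ring

/-- near pairs -/
theorem near_le (h4 : ST_KK) {n M : ℕ} {X : Fin M → R3} {d A : ℝ} (hd : 0 < d) (hA : 0 ≤ A)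
    (hS : Sep X d) {x : Cf n} (hD : Dist X x) (v q : Fin n → R3)
    (hW : ∀ k l, k < l → WP x v q k l ≤ A / nr (x k - x l)) :
    (∑ k, ∑ l, if k < l then NN X d x k l * WP x v q k l else 0) ≤
      A * Rem (d / 8) x + A * (16 / d) * ∑ i, cnt X (3 / 2 * d) x i ^ 2 := by
  have hb : 0 < d / 8 := by positivity
  have e1 : ∑ i, cnt X (3 / 2 * d) x i ^ 2 = ∑ k, ∑ l, NN X d x k l := by
    have e3 : ∀ i, cnt X (3 / 2 * d) x i ^ 2 =
        ∑ k, ∑ l, sw X (3 / 2 * d) x i k * sw X (3 / 2 * d) x i l := by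
      intro i
      rw [pow_two]
      unfold cnt
      rw [Finset.sum_mul_sum]
      rfl
    simp only [e3]
    unfold NN
    rw [Finset.sum_comm]
    refine Finset.sum_congr rfl fun k _ => ?_
    rw [Finset.sum_comm]
  have key : ∀ k l, (if k < l then NN X d x k l * WP x v q k l else 0) ≤
      A * (if k < l then 1 / nr (x k - x l) - Kf (d / 8) (x k - x l) else 0) +
        A * (16 / d) * NN X d x k l := by
    intro k l
    have s1 := NN_nonneg X d x k l
    have s2 := NN_le hd hS x k l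
    have s3 : 0 ≤ A * (16 / d) := by positivity
    split_ifs with h
    · have hr0 : nr (x k - x l) ≠ 0 := hD.1 k l h.ne
      have hK := (h4 (d / 8) (x k - x l) hb).2.2.2
      have hK1 := (h4 (d / 8) (x k - x l) hb).2.1 hr0
      have hK2 : 2 / (d / 8) = 16 / d := by
        field_simp
        norm_num
      have h1 := mul_le_mul_of_nonneg_left (hW k l h) s1
      have h2 : A / nr (x k - x l) = A * (1 / nr (x k - x l)) := by ring
      rw [h2] at h1
      have h3 : 0 ≤ 1 / nr (x k - x l) - Kf (d / 8) (x k - x l) := by linarith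
      have h4' : NN X d x k l * (A * (1 / nr (x k - x l) - Kf (d / 8) (x k - x l))) ≤
          1 * (A * (1 / nr (x k - x l) - Kf (d / 8) (x k - x l))) :=
        mul_le_mul_of_nonneg_right s2 (mul_nonneg hA h3)
      have h5 : NN X d x k l * (A * Kf (d / 8) (x k - x l)) ≤
          NN X d x k l * (A * (16 / d)) := by
        refine mul_le_mul_of_nonneg_left (mul_le_mul_of_nonneg_left ?_ hA) s1
        rw [← hK2]
        exact hK
      nlinarith [h1, h4', h5]
    · have := mul_nonneg s3 s1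
      linarith
  rw [e1]
  have h9 := Finset.sum_le_sum fun k (_ : k ∈ Finset.univ) => Finset.sum_le_sum
    fun l (_ : l ∈ (Finset.univ : Finset (Fin n))) => key k l
  refine h9.trans (le_of_eq ?_)
  unfold Rem
  simp only [Finset.sum_add_distrib, Finset.mul_sum]

/-- far part for one electron -/
theorem far_le {d C4 : ℝ} (hd : 0 < d) {n M : ℕ} {X : Fin M → R3} (hS : Sep X d)
    (Z : Fin M → ℝ) (x : Cf n) (v q : Fin n → R3) {K A : ℝ} {e : Fin M → ℝ} (hC4 : 0 < C4)
    (hA : 0 ≤ A)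
    (h4 : ∀ (i : Fin M) (v w y : R3), (∀ m, |v m| ≤ K) → (∀ m, |w m| ≤ K) →
      nr (y - X i) ≤ d / 2 →
      |(∑ l, if nr (x l - X i) < 3 / 2 * d then 0 else Tq (y - x l) v w) -
      ∑ j, if j = i then 0 else Z j * Tq (y - X j) v w| ≤ C4 * K ^ 2 * e i)
    (he : ∀ i m y, nr (y - X i) ≤ d → |farE d X Z x i m y| ≤ e i)
    (hv : ∀ k m, |v k m| ≤ K) (hq : ∀ k m, |q k m| ≤ A)
    (hv0 : ∀ k, (∀ i, d / 2 < nr (x k - X i)) → v k = 0)
    (hq0 : ∀ k, (∀ i, d / 2 < nr (x k - X i)) → q k = 0) (k : Fin n) :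
    ∑ l, (1 - NN X d x k l) * FK x v q k l + ∑ j, Z j * NU X x v q k j ≤
      (∑ i, sw X (3 / 2 * d) x i k * ((C4 * K ^ 2 + 3 * A) * e i)) +
        ∑ i, sw X (3 / 2 * d) x i k * (Z i * NU X x v q k i) := by
  have he0 : ∀ i, 0 ≤ e i := fun i => (abs_nonneg _).trans (he i 0 (X i) (by
    rw [sub_self]
    unfold nr
    simp
    exact hd.le))
  by_cases h : ∀ i, d / 2 < nr (x k - X i)
  · have h1 : ∀ l, FK x v q k l = 0 := by
      intro l
      unfold FK
      rw [hv0 k h, hq0 k h, Tq_zl]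
      simp
    have h2 : ∀ j, NU X x v q k j = 0 := by
      intro l
      unfold NU
      rw [hv0 k h, hq0 k h, Tq_zl]
      simp
    simp only [h1, h2, mul_zero, Finset.sum_const_zero, add_zero]
    refine Finset.sum_nonneg fun i _ => mul_nonneg (sw_nonneg _ _ _ _ _) (mul_nonneg ?_ (he0 i))
    positivity
  · push Not at h
    obtain ⟨i, hi⟩ := h
    have hi1 : nr (x k - X i) < 3 / 2 * d := by linarith
    have hi2 : nr (x k - X i) ≤ d := by linarith
    rw [sw_sum hd hS x k hi1, sw_sum hd hS x k hi1]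
    have e0 : ∀ l, NN X d x k l = sw X (3 / 2 * d) x i l := by
      intro l
      unfold NN
      exact sw_sum hd hS x k hi1 (fun j => sw X (3 / 2 * d) x j l)
    have e1 : ∑ m, q k m * farE d X Z x i m (x k) =
        ∑ l, (if nr (x l - X i) < 3 / 2 * d then 0 else
          (∑ m, q k m * (x k m - x l m)) / nr (x k - x l) ^ 3) -
        ∑ j, (if j = i then 0 else
          Z j * ((∑ m, q k m * (x k m - X j m)) / nr (x k - X j) ^ 3)) := by
      unfold farE
      simp only [mul_sub, Finset.sum_sub_distrib, Finset.mul_sum]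
      congr 1
      · rw [Finset.sum_comm]
        refine Finset.sum_congr rfl fun l _ => ?_
        split_ifs
        · simp
        · rw [← Finset.sum_sub_distrib, Finset.sum_div]
          exact Finset.sum_congr rfl fun m _ => by ring
      · rw [Finset.sum_comm]
        refine Finset.sum_congr rfl fun j _ => ?_
        split_ifs
        · simp
        · rw [← Finset.sum_sub_distrib, Finset.sum_div, Finset.mul_sum]
          exact Finset.sum_congr rfl fun m _ => by ring
    have e2 : ∑ l, (1 - NN X d x k l) * FK x v q k l =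
        (∑ l, if nr (x l - X i) < 3 / 2 * d then 0 else Tq (x k - x l) (v k) (v k)) -
        ∑ l, (if nr (x l - X i) < 3 / 2 * d then 0 else
          (∑ m, q k m * (x k m - x l m)) / nr (x k - x l) ^ 3) := by
      rw [← Finset.sum_sub_distrib]
      refine Finset.sum_congr rfl fun l _ => ?_
      rw [e0]
      unfold sw FK
      split_ifs <;> ring
    have e3 : ∑ j, Z j * NU X x v q k j = Z i * NU X x v q k i +
        (∑ j, (if j = i then 0 else
          Z j * ((∑ m, q k m * (x k m - X j m)) / nr (x k - X j) ^ 3)) -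
        ∑ j, if j = i then 0 else Z j * Tq (x k - X j) (v k) (v k)) := by
      have h1 : ∀ j, Z j * NU X x v q k j = (if j = i then Z i * NU X x v q k i else 0) +
          ((if j = i then 0 else
          Z j * ((∑ m, q k m * (x k m - X j m)) / nr (x k - X j) ^ 3)) -
          (if j = i then 0 else Z j * Tq (x k - X j) (v k) (v k))) := by
        intro j
        split_ifs with h
        · subst h
          ring
        · unfold NU
          ring
      rw [Finset.sum_congr rfl (fun j _ => h1 j), Finset.sum_add_distrib,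
        Finset.sum_sub_distrib]
      simp
    have b1 := (abs_le.1 (h4 i (v k) (v k) (x k) (hv k) (hv k) hi)).2
    have b2 : -∑ m, q k m * farE d X Z x i m (x k) ≤ 3 * A * e i := by
      have h5 : ∀ m, -(q k m * farE d X Z x i m (x k)) ≤ A * e i := by
        intro m
        refine (neg_le_abs _).trans ?_
        rw [abs_mul]
        exact mul_le_mul (hq k m) (he i m (x k) hi2) (abs_nonneg _) hA
      rw [Fin.sum_univ_three]
      linarith [h5 0, h5 1, h5 2]
    rw [e2, e3]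
    linarith

/-- cross terms -/
theorem cross_eq {d : ℝ} (hd : 0 < d) {n M : ℕ} {X : Fin M → R3} (hS : Sep X d) (x : Cf n)
    (v : Fin n → R3) (hv0 : ∀ k, (∀ i, d / 2 < nr (x k - X i)) → v k = 0) :
    (∑ k, ∑ l, if k < l then (1 - NN X d x k l) * Tq (x k - x l) (v k) (v l) else 0) =
    ∑ k, ∑ l, if k < l ∧ d < nr (x k - x l) then Tq (x k - x l) (v k) (v l) else 0 := by
  refine Finset.sum_congr rfl fun k _ => Finset.sum_congr rfl fun l _ => ?_
  by_cases hkl : k < l
  · rw [if_pos hkl]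
    by_cases h : ∀ i, d / 2 < nr (x k - X i)
    · rw [hv0 k h, Tq_zl]
      simp
    by_cases h' : ∀ i, d / 2 < nr (x l - X i)
    · rw [hv0 l h', Tq_zr]
      simp
    push Not at h h'
    obtain ⟨i, hi⟩ := h
    obtain ⟨j, hj⟩ := h'
    have hi1 : nr (x k - X i) < 3 / 2 * d := by linarith
    have e0 : NN X d x k l = sw X (3 / 2 * d) x i l := by
      unfold NN
      exact sw_sum hd hS x k hi1 (fun j => sw X (3 / 2 * d) x j l)
    rw [e0]
    by_cases hij : i = j
    · subst hij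
      have h1 : ¬ d < nr (x k - x l) := by
        have := pgb_tri (x k) (x l) (X i)
        have h2 := VIR_sym (x k) (X i)
        have h3 := VIR_sym (x l) (X i)
        linarith
      have h2 : sw X (3 / 2 * d) x i l = 1 := by
        unfold sw
        rw [if_pos (by linarith)]
      rw [h2, if_neg (fun h => h1 h.2)]
      ring
    · have h1 := hS i j hij
      have h2 := pgb_tri (X i) (X j) (x l)
      have h3 : sw X (3 / 2 * d) x i l = 0 := by
        unfold sw
        rw [if_neg]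
        intro h
        linarith
      have h4 : d < nr (x k - x l) := by
        have h5 := pgb_tri (X i) (x l) (x k)
        have h6 := VIR_sym (x l) (X i)
        linarith
      rw [h3, if_pos ⟨hkl, h4⟩]
      ring
  · rw [if_neg hkl, if_neg (fun h => hkl h.1)]

/-- the core -/
theorem core (h2 : ST_NBZ) (h3 : ST_FFZ) (h4 : ST_FGZ) (h5 : ST_DIP) (h6 : ST_KK) (d : ℝ)
    (hd : 0 < d) (hd1 : d ≤ 1) : ∃ C : ℝ, 0 < C ∧ ∀ (z A K : ℝ) (n M : ℕ) (X : Fin M → R3)
    (Z : Fin M → ℝ) (x : Cf n) (v q : Fin n → R3), Dat d z n X Z → Dist X x → 0 ≤ A →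
    K ^ 2 ≤ A → (∀ k m, |v k m| ≤ K) → (∀ k m, |q k m| ≤ A) →
    (∀ k, (∀ i, d / 2 < nr (x k - X i)) → v k = 0) →
    (∀ k, (∀ i, d / 2 < nr (x k - X i)) → q k = 0) →
    (∀ k l, k < l → WP x v q k l ≤ A / nr (x k - x l)) →
    DV X Z x v q ≤ C * A * (z ^ 2 * M + Dn (d / 8) X Z x + Rem (d / 8) x) +
      ∑ k, ∑ i, sw X (3 / 2 * d) x i k * (Z i * NU X x v q k i) := by
  obtain ⟨C2, hC2, k2⟩ := h2 d hd hd1
  obtain ⟨C3, hC3, k3⟩ := h3 d hd hd1
  obtain ⟨C4, hC4, k4⟩ := h4 d hd hd1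
  obtain ⟨C5, hC5, k5⟩ := h5 d hd hd1
  obtain ⟨P, hP⟩ : ∃ P : ℝ, P = 1 + 16 / d * C2 + (C4 + 3) / 2 * (C2 + C3) + 2 * C5 * C2 :=
    ⟨_, rfl⟩
  have hP0 : 0 < P := by
    rw [hP]
    positivity
  refine ⟨P, hP0, ?_⟩
  intro z A K n M X Z x v q hDat hD hA hKA hv hq hv0 hq0 hW
  have hS := hDat.sep
  have q2 := k2 z n M X Z x hDat
  obtain ⟨e, he, q3⟩ := k3 z n M X Z x hDat
  have b1 := near_le h6 hd hA hS hD v q hW
  have b2 : ∀ k, _ := far_le (K := K) hd hS Z x v q hC4 hA
    (fun i v w y hv hw hy => k4 n M X Z x i (e i) K v w y hS (fun m y hy => he i m y hy) hv hw hy)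
    he hv hq hv0 hq0
  have b2' : (∑ k, (∑ l, (1 - NN X d x k l) * FK x v q k l + ∑ j, Z j * NU X x v q k j)) ≤
      (∑ k, ∑ i, sw X (3 / 2 * d) x i k * ((C4 * K ^ 2 + 3 * A) * e i)) +
        ∑ k, ∑ i, sw X (3 / 2 * d) x i k * (Z i * NU X x v q k i) := by
    rw [← Finset.sum_add_distrib]
    exact Finset.sum_le_sum fun k _ => b2 k
  have b3 := k5 n M X x v K hS hv hv0
  rw [← cross_eq hd hS x v hv0] at b3
  rw [DV_split X Z d x v q]
  have hR : 0 ≤ Rem (d / 8) x := by
    unfold Rem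
    refine Finset.sum_nonneg fun k _ => Finset.sum_nonneg fun l _ => ?_
    split_ifs with h
    · have := (h6 (d / 8) (x k - x l) (by positivity)).2.1 (hD.1 k l h.ne)
      linarith
    · exact le_rfl
  have hD0 : 0 ≤ Dn (d / 8) X Z x := VIR_Dn _ _ _ _
  have hM0 : 0 ≤ z ^ 2 * (M : ℝ) := by positivity
  obtain ⟨S, hSd⟩ : ∃ S : ℝ, S = ∑ i, cnt X (3 / 2 * d) x i ^ 2 := ⟨_, rfl⟩
  obtain ⟨T, hT⟩ : ∃ T : ℝ, T = ∑ i, e i ^ 2 := ⟨_, rfl⟩
  obtain ⟨Y, hY⟩ : ∃ Y : ℝ, Y = z ^ 2 * M + Dn (d / 8) X Z x := ⟨_, rfl⟩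
  have hY0 : 0 ≤ Y := by
    rw [hY]
    positivity
  have hS0 : 0 ≤ S := by
    rw [hSd]
    positivity
  have b4 : ∑ k, ∑ i, sw X (3 / 2 * d) x i k * ((C4 * K ^ 2 + 3 * A) * e i) ≤
      (C4 * K ^ 2 + 3 * A) * (1 / 2 * (S + T)) := by
    rw [Finset.sum_comm]
    have e5 : ∀ i, ∑ k, sw X (3 / 2 * d) x i k * ((C4 * K ^ 2 + 3 * A) * e i) =
        (C4 * K ^ 2 + 3 * A) * (cnt X (3 / 2 * d) x i * e i) := by
      intro i
      rw [← Finset.sum_mul]
      unfold cnt sw
      ring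
    simp only [e5, ← Finset.mul_sum]
    refine mul_le_mul_of_nonneg_left ?_ (by positivity)
    rw [hSd, hT, ← Finset.sum_add_distrib, Finset.mul_sum]
    refine Finset.sum_le_sum fun i _ => ?_
    nlinarith [sq_nonneg (cnt X (3 / 2 * d) x i - e i)]
  rw [← hSd] at b1 b3 q2
  rw [← hT] at q3
  rw [← hY] at q2 q3 ⊢
  have c1 : A * (16 / d) * S ≤ A * (16 / d) * (C2 * Y) :=
    mul_le_mul_of_nonneg_left q2 (by positivity)
  have c2 : (C4 * K ^ 2 + 3 * A) * (1 / 2 * (S + T)) ≤
      (C4 * A + 3 * A) * (1 / 2 * (C2 * Y + C3 * Y)) := by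
    refine mul_le_mul ?_ (by linarith) (by rw [hT]; positivity) (by positivity)
    have := mul_le_mul_of_nonneg_left hKA hC4.le
    linarith
  have c3 : C5 * K ^ 2 * S ≤ C5 * A * (C2 * Y) :=
    mul_le_mul (mul_le_mul_of_nonneg_left hKA hC5.le) q2 hS0 (by positivity)
  have c4 : 0 ≤ A * Y := mul_nonneg hA hY0
  have c5 : P * A * (Y + Rem (d / 8) x) = A * Rem (d / 8) x + (P - 1) * (A * Rem (d / 8) x) +
      (A * Y + A * (16 / d) * (C2 * Y) + (C4 * A + 3 * A) * (1 / 2 * (C2 * Y + C3 * Y)) +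
      2 * (C5 * A * (C2 * Y))) := by
    rw [hP]
    ring
  have c6 : 0 ≤ (P - 1) * (A * Rem (d / 8) x) := by
    refine mul_nonneg ?_ (mul_nonneg hA hR)
    rw [hP]
    have : 0 ≤ 16 / d * C2 + (C4 + 3) / 2 * (C2 + C3) + 2 * C5 * C2 := by positivity
    linarith
  rw [c5]
  linarith

end Pool.Agent.Helper6.HV
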