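import Pool.Agent.Helper6.HV.CORE

/-!
# HV: Lipschitz bounds of a field at scale `ρ`
-/

set_option autoImplicit false

namespace Pool.Agent.Helper6.HV

open MeasureTheory Filter Pool.Agent.Helper95.PW Pool.Agent.Helper95.LN Pool.Agent.Helper95.CF
  Pool.Agent.Helper95.HV Pool.Agent.Helper53.LN
open Pool.Agent.Helper14.PW (poe_pd_cd poe_fderiv)

theorem lip1 {f : R3 → ℝ} (hf : ContDiff ℝ (⊤ : ℕ∞) f) {B : ℝ} (hB : ∀ j y, |pd j f y| ≤ B)
    (x y : R3) : |f x - f y| ≤ 3 * B * nr (x - y) := by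
  have hB0 : 0 ≤ B := (abs_nonneg _).trans (hB 0 x)
  have hd : ∀ t : ℝ, HasDerivAt (fun t : ℝ => f (y + t • (x - y)))
      (∑ i, (x i - y i) * pd i f (y + t • (x - y))) t := by
    intro t
    have h1 : HasFDerivAt f (fderiv ℝ f (y + t • (x - y))) (y + t • (x - y)) :=
      (hf.differentiable (by simp) _).hasFDerivAt
    have h2 : HasDerivAt (fun t : ℝ => y + t • (x - y)) (x - y) t := by
      simpa using ((hasDerivAt_id t).smul_const (x - y)).const_add y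
    have h3 := h1.comp_hasDerivAt t h2
    rw [poe_fderiv] at h3
    exact h3
  have hb : ∀ t : ℝ, |∑ i, (x i - y i) * pd i f (y + t • (x - y))| ≤ 3 * B * nr (x - y) := by
    intro t
    refine (Finset.abs_sum_le_sum_abs _ _).trans ?_
    have h1 : ∀ i, |(x i - y i) * pd i f (y + t • (x - y))| ≤ nr (x - y) * B := by
      intro i
      rw [abs_mul]
      exact mul_le_mul (VIR_comp (x - y) i) (hB i _) (abs_nonneg _) (VIR_nr0 _)
    rw [Fin.sum_univ_three]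
    linarith [h1 0, h1 1, h1 2]
  have h1 := Convex.norm_image_sub_le_of_norm_hasDerivWithin_le (𝕜 := ℝ)
    (f := fun t : ℝ => f (y + t • (x - y))) (s := Set.univ) (x := 0) (y := 1)
    (fun t _ => (hd t).hasDerivWithinAt) (fun t _ => by
      rw [Real.norm_eq_abs]
      exact hb t) convex_univ (Set.mem_univ _) (Set.mem_univ _)
  have e1 : y + (1 : ℝ) • (x - y) = x := by simp
  have e0 : y + (0 : ℝ) • (x - y) = y := by simp
  simp only [e1, e0, Real.norm_eq_abs] at h1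
  simpa using h1

theorem Tq_le {ξ w : R3} {b : ℝ} (hw : ∀ m, |w m| ≤ b) (hξ : nr ξ ≠ 0) :
    Tq ξ w w ≤ 9 * b ^ 2 / nr ξ ^ 3 ∧ -Tq ξ w w ≤ 3 * b ^ 2 / nr ξ ^ 3 := by
  have hr : 0 < nr ξ := lt_of_le_of_ne (VIR_nr0 _) (Ne.symm hξ)
  have hb : 0 ≤ b := (abs_nonneg _).trans (hw 0)
  have hn := VIR_nrsq ξ
  have hs : ∑ m, w m * w m ≤ 3 * b ^ 2 := by
    have h1 : ∀ m, w m * w m ≤ b ^ 2 := by
      intro m
      have h2 := abs_le.1 (hw m)
      nlinarith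
    rw [Fin.sum_univ_three]
    linarith [h1 0, h1 1, h1 2]
  have hs0 : 0 ≤ ∑ m, w m * w m := Finset.sum_nonneg fun m _ => mul_self_nonneg _
  have hc : (∑ m, w m * ξ m) * (∑ m, w m * ξ m) ≤ (∑ m, w m * w m) * nr ξ ^ 2 := by
    rw [hn]
    simp only [Fin.sum_univ_three]
    nlinarith [sq_nonneg (w 0 * ξ 1 - w 1 * ξ 0), sq_nonneg (w 0 * ξ 2 - w 2 * ξ 0),
      sq_nonneg (w 1 * ξ 2 - w 2 * ξ 1)]
  have hc0 : 0 ≤ (∑ m, w m * ξ m) * (∑ m, w m * ξ m) := mul_self_nonneg _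
  have e1 : Tq ξ w w = (3 * ((∑ m, w m * ξ m) * (∑ m, w m * ξ m)) -
      (∑ m, w m * w m) * nr ξ ^ 2) / nr ξ ^ 5 := by
    unfold Tq
    field_simp
  have e2 : ∀ c : ℝ, c / nr ξ ^ 3 = c * nr ξ ^ 2 / nr ξ ^ 5 := by
    intro c
    field_simp
  have hr2 : 0 ≤ nr ξ ^ 2 := by positivity
  constructor
  · rw [e1, e2]
    refine div_le_div_of_nonneg_right ?_ (by positivity)
    nlinarith [mul_le_mul_of_nonneg_right hs hr2, mul_nonneg hs0 hr2]
  · rw [e1, e2, ← neg_div]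
    refine div_le_div_of_nonneg_right ?_ (by positivity)
    nlinarith [mul_le_mul_of_nonneg_right hs hr2, mul_nonneg hs0 hr2]

/-- size of the acceleration -/
theorem gq_le {g : R3 → ℝ} {K ρ : ℝ} (hK : 1 ≤ K) (hρ : 0 < ρ) (hg : Scale g K ρ) (y : R3)
    (i : Fin 3) : |gq g y i| ≤ 3 * K ^ 2 / ρ := by
  unfold gq
  refine (Finset.abs_sum_le_sum_abs _ _).trans ?_
  have h1 : ∀ l, |pd l (pd i g) y * pd l g y| ≤ K ^ 2 / ρ := by
    intro l
    rw [abs_mul]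
    refine (mul_le_mul (hg.d2 l i y) (hg.d1 l y) (abs_nonneg _) (by positivity)).trans
      (le_of_eq ?_)
    ring
  have h2 : 3 * K ^ 2 / ρ = K ^ 2 / ρ + K ^ 2 / ρ + K ^ 2 / ρ := by ring
  rw [Fin.sum_univ_three, h2]
  linarith [h1 0, h1 1, h1 2]

/-- pair terms of a field at scale `ρ` -/
theorem WP_le {g : R3 → ℝ} {K ρ : ℝ} (hK : 1 ≤ K) (hρ : 0 < ρ) (hg : Scale g K ρ) {n : ℕ}
    (x : Cf n) (k l : Fin n) (h0 : nr (x k - x l) ≠ 0) :
    WP x (fun k => gv g (x k)) (fun k => gq g (x k)) k l ≤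
      (135 * K ^ 2 / ρ ^ 2) / nr (x k - x l) := by
  have hr : 0 < nr (x k - x l) := lt_of_le_of_ne (VIR_nr0 _) (Ne.symm h0)
  set r := nr (x k - x l) with hrd
  have hv : ∀ m, |(gv g (x k) - gv g (x l)) m| ≤ 3 * (K / ρ) * r := fun m =>
    lip1 (poe_pd_cd hg.sm m) (fun j y => hg.d2 j m y) (x k) (x l)
  have h1 := (Tq_le hv h0).1
  have hq : ∀ i, |gq g (x k) i - gq g (x l) i| ≤ 18 * (K ^ 2 / ρ ^ 2) * r := by
    intro i
    unfold gq
    rw [← Finset.sum_sub_distrib]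
    refine (Finset.abs_sum_le_sum_abs _ _).trans ?_
    have h2 : ∀ l', |pd l' (pd i g) (x k) * pd l' g (x k) - pd l' (pd i g) (x l) * pd l' g (x l)| ≤
        6 * (K ^ 2 / ρ ^ 2) * r := by
      intro l'
      have h3 : pd l' (pd i g) (x k) * pd l' g (x k) - pd l' (pd i g) (x l) * pd l' g (x l) =
          (pd l' (pd i g) (x k) - pd l' (pd i g) (x l)) * pd l' g (x k) +
          pd l' (pd i g) (x l) * (pd l' g (x k) - pd l' g (x l)) := by ring
      rw [h3]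
      refine (abs_add_le _ _).trans ?_
      rw [abs_mul, abs_mul]
      have h4 : |pd l' (pd i g) (x k) - pd l' (pd i g) (x l)| ≤ 3 * (K / ρ ^ 2) * r :=
        lip1 (poe_pd_cd (poe_pd_cd hg.sm i) l') (fun j y => hg.d3 j l' i y) (x k) (x l)
      have h5 : |pd l' g (x k) - pd l' g (x l)| ≤ 3 * (K / ρ) * r :=
        lip1 (poe_pd_cd hg.sm l') (fun j y => hg.d2 j l' y) (x k) (x l)
      have h6 := mul_le_mul h4 (hg.d1 l' (x k)) (abs_nonneg _) (by positivity)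
      have h7 := mul_le_mul (hg.d2 l' i (x l)) h5 (abs_nonneg _) (by positivity)
      have h8 : 6 * (K ^ 2 / ρ ^ 2) * r = 3 * (K / ρ ^ 2) * r * K + K / ρ * (3 * (K / ρ) * r) := by
        field_simp
        ring
      rw [h8]
      exact add_le_add h6 h7
    rw [Fin.sum_univ_three]
    linarith [h2 0, h2 1, h2 2]
  have h9 : -((∑ i, (gq g (x k) i - gq g (x l) i) * (x k i - x l i)) / r ^ 3) ≤
      54 * (K ^ 2 / ρ ^ 2) / r := by
    have h10 : -(∑ i, (gq g (x k) i - gq g (x l) i) * (x k i - x l i)) ≤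
        54 * (K ^ 2 / ρ ^ 2) * r ^ 2 := by
      have h11 : ∀ i, -((gq g (x k) i - gq g (x l) i) * (x k i - x l i)) ≤
          18 * (K ^ 2 / ρ ^ 2) * r * r := by
        intro i
        refine (neg_le_abs _).trans ?_
        rw [abs_mul]
        exact mul_le_mul (hq i) (VIR_comp (x k - x l) i) (abs_nonneg _) (by positivity)
      rw [Fin.sum_univ_three]
      nlinarith [h11 0, h11 1, h11 2]
    rw [← neg_div, div_le_div_iff₀ (by positivity) hr]
    have := mul_le_mul_of_nonneg_right h10 hr.le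
    calc _ ≤ 54 * (K ^ 2 / ρ ^ 2) * r ^ 2 * r := this
      _ = _ := by ring
  have h12 : 9 * (3 * (K / ρ) * r) ^ 2 / r ^ 3 = 81 * (K ^ 2 / ρ ^ 2) / r := by
    field_simp
    ring
  rw [h12] at h1
  have h13 : (135 * K ^ 2 / ρ ^ 2) / r = 81 * (K ^ 2 / ρ ^ 2) / r + 54 * (K ^ 2 / ρ ^ 2) / r := by
    ring
  rw [h13]
  unfold WP
  exact (sub_eq_add_neg _ _).le.trans (add_le_add h1 h9)

/-- own nucleus, away from it -/
theorem NU_le {n M : ℕ} {X : Fin M → R3} {x : Cf n} {v q : Fin n → R3} {k : Fin n} {i : Fin M}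
    {K ρ : ℝ} (hK : 1 ≤ K) (hρ : 0 < ρ) (hρ1 : ρ ≤ 1) (hv : ∀ m, |v k m| ≤ K)
    (hq : ∀ m, |q k m| ≤ 3 * K ^ 2 / ρ) (h : ρ ≤ nr (x k - X i)) :
    NU X x v q k i ≤ 12 * K ^ 2 / ρ ^ 2 * (1 / nr (x k - X i)) := by
  have hr : 0 < nr (x k - X i) := lt_of_lt_of_le hρ h
  have h1 := (Tq_le hv hr.ne').2
  set r := nr (x k - X i) with hrd
  have h2 : (∑ m, q k m * (x k m - X i m)) / r ^ 3 ≤ 9 * K ^ 2 / ρ ^ 2 * (1 / r) := by
    have h3 : ∑ m, q k m * (x k m - X i m) ≤ 9 * K ^ 2 / ρ * r := by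
      have h4 : ∀ m, q k m * (x k m - X i m) ≤ 3 * K ^ 2 / ρ * r := by
        intro m
        refine (le_abs_self _).trans ?_
        rw [abs_mul]
        exact mul_le_mul (hq m) (VIR_comp (x k - X i) m) (abs_nonneg _) (by positivity)
      have h5 : 9 * K ^ 2 / ρ * r = 3 * K ^ 2 / ρ * r + 3 * K ^ 2 / ρ * r + 3 * K ^ 2 / ρ * r := by
        ring
      rw [Fin.sum_univ_three, h5]
      linarith [h4 0, h4 1, h4 2]
    rw [div_le_iff₀ (by positivity)]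
    refine h3.trans ?_
    have e1 : 9 * K ^ 2 / ρ ^ 2 * (1 / r) * r ^ 3 = 9 * K ^ 2 / ρ * r * (r / ρ) := by
      field_simp
    rw [e1]
    have h6 : 1 ≤ r / ρ := (one_le_div hρ).2 h
    have h7 : 0 ≤ 9 * K ^ 2 / ρ * r := by positivity
    nlinarith
  have h8 : 3 * K ^ 2 / r ^ 3 ≤ 3 * K ^ 2 / ρ ^ 2 * (1 / r) := by
    have e1 : 3 * K ^ 2 / r ^ 3 = 3 * K ^ 2 / r ^ 2 * (1 / r) := by
      field_simp
    rw [e1]
    refine mul_le_mul_of_nonneg_right ?_ (by positivity)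
    exact div_le_div_of_nonneg_left (by positivity) (by positivity)
      (pow_le_pow_left₀ hρ.le h 2)
  unfold NU
  have h9 : 12 * K ^ 2 / ρ ^ 2 * (1 / r) = 9 * K ^ 2 / ρ ^ 2 * (1 / r) +
      3 * K ^ 2 / ρ ^ 2 * (1 / r) := by ring
  rw [h9]
  linarith

end Pool.Agent.Helper6.HV
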