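import Pool.Agent.Helper6.HV.LIP

/-!
# HV: the row V2S
-/

set_option autoImplicit false

namespace Pool.Agent.Helper6.HV

open MeasureTheory Filter Pool.Agent.Helper95.PW Pool.Agent.Helper95.LN Pool.Agent.Helper95.CF
  Pool.Agent.Helper95.HV Pool.Agent.Helper53.LN

theorem gq_zero {g : R3 → ℝ} {y : R3} (h : ∀ i, pd i g y = 0) : gq g y = 0 := by
  funext i
  unfold gq
  simp [h]

theorem gv_zero {g : R3 → ℝ} {y : R3} (h : ∀ i, pd i g y = 0) : gv g y = 0 := by
  funext i
  exact h i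

theorem V2S (h2 : ST_NBZ) (h3 : ST_FFZ) (h4 : ST_FGZ) (h5 : ST_DIP) (h6 : ST_KK) : ST_V2S := by
  intro d hd hd1
  obtain ⟨C, hC, hc⟩ := core h2 h3 h4 h5 h6 d hd hd1
  refine ⟨135 * C + 12, by positivity, ?_⟩
  intro z K ρ n M X Z g x hDat hK hρ hρd hg hnr hout hD
  have hz : 0 ≤ z := zero_le_one.trans hDat.z1
  have hρ1 : ρ ≤ 1 := hρd.trans hd1
  have hρ2 : ρ ^ 2 ≤ 1 := pow_le_one₀ hρ.le hρ1
  have hρ3 : ρ ^ 2 ≤ ρ := by nlinarith
  have hA : 0 ≤ 135 * K ^ 2 / ρ ^ 2 := by positivity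
  have hK2 : 0 ≤ K ^ 2 := by positivity
  have hKA : K ^ 2 ≤ 135 * K ^ 2 / ρ ^ 2 := by
    rw [le_div_iff₀ (by positivity)]
    nlinarith
  have hqA : 3 * K ^ 2 / ρ ≤ 135 * K ^ 2 / ρ ^ 2 := by
    rw [div_le_div_iff₀ hρ (by positivity)]
    nlinarith [mul_nonneg hK2 hρ.le, mul_le_mul_of_nonneg_left hρ3 hK2]
  have h0 := hc z (135 * K ^ 2 / ρ ^ 2) K n M X Z x (fun k => gv g (x k)) (fun k => gq g (x k))
    hDat hD hA hKA (fun k m => hg.d1 m (x k))
    (fun k m => (gq_le hK hρ hg (x k) m).trans hqA)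
    (fun k h => gv_zero (hout (x k) h)) (fun k h => gq_zero (hout (x k) h))
    (fun k l h => WP_le hK hρ hg x k l (hD.1 k l h.ne))
  rw [D2_eq]
  refine h0.trans ?_
  have own : ∀ k i, sw X (3 / 2 * d) x i k * (Z i * NU X x (fun k => gv g (x k))
      (fun k => gq g (x k)) k i) ≤
      12 * K ^ 2 / ρ ^ 2 * (z * (if nr (x k - X i) < d then 1 / nr (x k - X i) else 0)) := by
    intro k i
    have hR : 0 ≤ 12 * K ^ 2 / ρ ^ 2 *
        (z * (if nr (x k - X i) < d then 1 / nr (x k - X i) else 0)) := by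
      refine mul_nonneg (by positivity) (mul_nonneg hz ?_)
      split_ifs
      · exact div_nonneg zero_le_one (VIR_nr0 _)
      · exact le_rfl
    have hN0 : (∀ i, pd i g (x k) = 0) → NU X x (fun k => gv g (x k))
        (fun k => gq g (x k)) k i = 0 := by
      intro h
      unfold NU
      simp only [gv_zero h, gq_zero h, Tq_zl]
      simp
    by_cases hr : nr (x k - X i) < ρ
    · rw [hN0 (fun i' => hnr i (x k) hr i')]
      simpa using hR
    · rw [not_lt] at hr
      by_cases hr2 : nr (x k - X i) < d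
      · rw [if_pos hr2]
        have h1 := NU_le (X := X) (x := x) (v := fun k => gv g (x k)) (q := fun k => gq g (x k))
          (k := k) (i := i) hK hρ hρ1 (fun m => hg.d1 m (x k)) (fun m => gq_le hK hρ hg (x k) m) hr
        have hZ := hDat.nuc.1 i
        have hZz := hDat.le i
        have hB : 0 ≤ 12 * K ^ 2 / ρ ^ 2 * (1 / nr (x k - X i)) :=
          mul_nonneg (by positivity) (div_nonneg zero_le_one (VIR_nr0 _))
        have h2 := mul_le_mul_of_nonneg_left h1 hZ
        have h3 := mul_le_mul_of_nonneg_right hZz hB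
        have h4 := h2.trans h3
        have h5 := mul_le_mul_of_nonneg_left h4 (sw_nonneg X (3 / 2 * d) x i k)
        have h6 := mul_le_mul_of_nonneg_right (sw_le X (3 / 2 * d) x i k) (mul_nonneg hz hB)
        refine h5.trans (h6.trans (le_of_eq ?_))
        ring
      · by_cases hr3 : nr (x k - X i) < 3 / 2 * d
        · have h1 : ∀ i', pd i' g (x k) = 0 := by
            refine hout (x k) fun j => ?_
            by_cases hj : j = i
            · rw [hj]
              rw [not_lt] at hr2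
              linarith
            · have h3 := hDat.sep j i hj
              have h4 := Pool.Agent.Helper82.PN.pgb_tri (X j) (X i) (x k)
              linarith
          rw [hN0 h1]
          simpa using hR
        · have h1 : sw X (3 / 2 * d) x i k = 0 := by
            unfold sw
            rw [if_neg hr3]
          rw [h1]
          simpa using hR
  have hsum : ∑ k, ∑ i, sw X (3 / 2 * d) x i k * (Z i * NU X x (fun k => gv g (x k))
      (fun k => gq g (x k)) k i) ≤ 12 * K ^ 2 / ρ ^ 2 * (z * ∑ k, near1 X d (x k)) := by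
    have h1 := Finset.sum_le_sum fun k (_ : k ∈ Finset.univ) => Finset.sum_le_sum
      fun i (_ : i ∈ (Finset.univ : Finset (Fin M))) => own k i
    refine h1.trans (le_of_eq ?_)
    unfold near1
    simp only [Finset.mul_sum]
  have hD0 : 0 ≤ Dn (d / 8) X Z x := VIR_Dn _ _ _ _
  have hR : 0 ≤ Rem (d / 8) x := by
    unfold Rem
    refine Finset.sum_nonneg fun k _ => Finset.sum_nonneg fun l _ => ?_
    split_ifs with h
    · have := (h6 (d / 8) (x k - x l) (by positivity)).2.1 (hD.1 k l h.ne)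
      linarith
    · exact le_rfl
  have hN1 : 0 ≤ z * ∑ k, near1 X d (x k) := by
    refine mul_nonneg hz (Finset.sum_nonneg fun k _ => ?_)
    unfold near1
    refine Finset.sum_nonneg fun j _ => ?_
    split_ifs
    · exact div_nonneg zero_le_one (VIR_nr0 _)
    · exact le_rfl
  have hL : Loc d z X Z x = (z ^ 2 * M + Dn (d / 8) X Z x + Rem (d / 8) x) +
      z * ∑ k, near1 X d (x k) := rfl
  have hY0 : 0 ≤ z ^ 2 * (M : ℝ) + Dn (d / 8) X Z x + Rem (d / 8) x := by positivity
  rw [hL]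
  have hKr : 0 ≤ K ^ 2 / ρ ^ 2 := by positivity
  have e1 : (135 * C + 12) * K ^ 2 / ρ ^ 2 * ((z ^ 2 * M + Dn (d / 8) X Z x + Rem (d / 8) x) +
      z * ∑ k, near1 X d (x k)) =
      C * (135 * K ^ 2 / ρ ^ 2) * (z ^ 2 * M + Dn (d / 8) X Z x + Rem (d / 8) x) +
      12 * K ^ 2 / ρ ^ 2 * (z * ∑ k, near1 X d (x k)) +
      (12 * (K ^ 2 / ρ ^ 2 * (z ^ 2 * M + Dn (d / 8) X Z x + Rem (d / 8) x)) +
      135 * C * (K ^ 2 / ρ ^ 2 * (z * ∑ k, near1 X d (x k)))) := by
    ring
  rw [e1]
  have e2 : 0 ≤ 12 * (K ^ 2 / ρ ^ 2 * (z ^ 2 * M + Dn (d / 8) X Z x + Rem (d / 8) x)) +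
      135 * C * (K ^ 2 / ρ ^ 2 * (z * ∑ k, near1 X d (x k))) := by
    have := mul_nonneg hKr hY0
    have := mul_nonneg hKr hN1
    positivity
  linarith

end Pool.Agent.Helper6.HV
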